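import Pool.Agent.Y476.RM.Stm

/-!
# Maximal rigid set
-/

set_option autoImplicit false
open MeasureTheory Filter Topology
open scoped ENNReal

namespace Pool.Agent.Y969.HM.Max
open Pool.Agent.Y476.RM

variable {G : Type} [NormedAddCommGroup G] [CompactSpace G] [MeasurableSpace G] [BorelSpace G]

lemma integ (θ : Measure G) [IsFiniteMeasure θ] (φ : C(G, ℝ)) : Integrable (fun x => φ x) θ := by
  obtain ⟨C, hC⟩ := (isCompact_range φ.continuous).isBounded.exists_norm_le
  exact Integrable.of_bound (C := C) φ.continuous.aestronglyMeasurable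
    (ae_of_all _ fun x => hC _ ⟨x, rfl⟩)

lemma integ' (θ : Measure G) [IsFiniteMeasure θ] (φ : C(G, ℝ)) (s : G) :
    Integrable (fun x => φ (x + s)) θ := by
  have := integ θ (φ.comp ⟨fun x => x + s, by fun_prop⟩)
  exact this

lemma TD_mono {θ : Measure G} {s : G} {e e' : ℝ} (h : TD θ s e) (hle : e ≤ e') : TD θ s e' :=
  fun φ hφ => (h φ hφ).trans hle

lemma TD_add {θ₁ θ₂ : Measure G} [IsFiniteMeasure θ₁] [IsFiniteMeasure θ₂] {s : G} {e₁ e₂ : ℝ}
    (h₁ : TD θ₁ s e₁) (h₂ : TD θ₂ s e₂) : TD (θ₁ + θ₂) s (e₁ + e₂) := by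
  intro φ hφ
  rw [integral_add_measure (integ' θ₁ φ s) (integ' θ₂ φ s),
    integral_add_measure (integ θ₁ φ) (integ θ₂ φ)]
  have a := h₁ φ hφ
  have b := h₂ φ hφ
  have : (∫ x, φ (x + s) ∂θ₁ + ∫ x, φ (x + s) ∂θ₂) - (∫ x, φ x ∂θ₁ + ∫ x, φ x ∂θ₂)
      = (∫ x, φ (x + s) ∂θ₁ - ∫ x, φ x ∂θ₁) + (∫ x, φ (x + s) ∂θ₂ - ∫ x, φ x ∂θ₂) := by ring
  rw [this]
  exact (abs_add_le _ _).trans (add_le_add a b)

lemma TD_triv (θ : Measure G) [IsFiniteMeasure θ] (s : G) : TD θ s (2 * θ.real Set.univ) := by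
  intro φ hφ
  have a : |∫ x, φ (x + s) ∂θ| ≤ 1 * θ.real Set.univ := by
    have := norm_integral_le_of_norm_le_const (μ := θ) (f := fun x => φ (x + s)) (C := 1)
      (ae_of_all _ fun x => hφ _)
    exact this
  have b : |∫ x, φ x ∂θ| ≤ 1 * θ.real Set.univ := by
    have := norm_integral_le_of_norm_le_const (μ := θ) (f := fun x => φ x) (C := 1)
      (ae_of_all _ fun x => hφ _)
    exact this
  calc |∫ x, φ (x + s) ∂θ - ∫ x, φ x ∂θ| ≤ |∫ x, φ (x + s) ∂θ| + |∫ x, φ x ∂θ| := abs_sub _ _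
    _ ≤ 2 * θ.real Set.univ := by linarith

variable {ι : Type} {l : Filter ι} {s : ι → G}

lemma Rig_add {θ₁ θ₂ : Measure G} [IsFiniteMeasure θ₁] [IsFiniteMeasure θ₂]
    (h₁ : Rig l s θ₁) (h₂ : Rig l s θ₂) : Rig l s (θ₁ + θ₂) := by
  intro ε hε
  filter_upwards [h₁ (ε / 2) (by linarith), h₂ (ε / 2) (by linarith)] with i a b
  exact TD_mono (TD_add a b) (by linarith)

lemma Rig_union (hR : S_R1) (hs : Tendsto s l (𝓝 0)) (ν : Measure G) [IsFiniteMeasure ν]
    {E F : Set G} (hE : Rig l s (ν.restrict E)) (hF : Rig l s (ν.restrict F)) :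
    Rig l s (ν.restrict (E ∪ F)) :=
  hR G ι l s (ν.restrict E + ν.restrict F) (ν.restrict (E ∪ F)) (Rig_add hE hF) hs
    (Measure.absolutelyContinuous_of_le (Measure.restrict_union_le E F))

lemma Rig_iUnion (hR : S_R1) (hs : Tendsto s l (𝓝 0)) (ν : Measure G) [IsFiniteMeasure ν]
    (E : ℕ → Set G) (hm : ∀ n, MeasurableSet (E n)) (hE : ∀ n, Rig l s (ν.restrict (E n))) :
    Rig l s (ν.restrict (⋃ n, E n)) := by
  have hacc : ∀ m, Rig l s (ν.restrict (Set.accumulate E m)) := by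
    intro m
    induction m with
    | zero => simpa [Set.accumulate_def] using hE 0
    | succ m ih =>
      rw [Set.accumulate_succ]
      exact Rig_union hR hs ν ih (hE (m + 1))
  intro ε hε
  have hlim : Tendsto (fun m => ν.real (Set.accumulate E m)) atTop (𝓝 (ν.real (⋃ n, E n))) :=
    (ENNReal.tendsto_toReal (measure_ne_top ν _)).comp tendsto_measure_iUnion_accumulate
  obtain ⟨m, hm'⟩ := ((Metric.tendsto_nhds.mp hlim) (ε / 4) (by linarith)).exists
  have hsub : Set.accumulate E m ⊆ ⋃ n, E n := Set.accumulate_subset_iUnion m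
  have hmeas : MeasurableSet (Set.accumulate E m) := by
    rw [Set.accumulate_def]
    exact MeasurableSet.iUnion fun n => MeasurableSet.iUnion fun _ => hm n
  have hdiff : ν.real ((⋃ n, E n) \ Set.accumulate E m) ≤ ε / 4 := by
    rw [measureReal_sdiff hsub hmeas]
    rw [Real.dist_eq] at hm'
    have := (abs_lt.mp hm').1
    linarith
  have hdec : ν.restrict (⋃ n, E n)
      = ν.restrict (Set.accumulate E m) + ν.restrict ((⋃ n, E n) \ Set.accumulate E m) := by
    rw [← Measure.restrict_union Set.disjoint_sdiff_right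
      ((MeasurableSet.iUnion hm).diff hmeas), Set.union_sdiff_cancel hsub]
  filter_upwards [hacc m (ε / 2) (by linarith)] with i hi
  rw [hdec]
  refine TD_mono (TD_add hi (TD_triv _ (s i))) ?_
  rw [measureReal_restrict_apply MeasurableSet.univ, Set.univ_inter]
  linarith

theorem t (hR : S_R1) : S_MAX := by
  intro G _ _ _ _ ι l s hs ν _
  set S : Set ℝ≥0∞ := {c | ∃ E : Set G, MeasurableSet E ∧ Rig l s (ν.restrict E) ∧ ν E = c} with hS
  have hne : S.Nonempty := by
    refine ⟨0, ∅, MeasurableSet.empty, ?_, by simp⟩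
    intro ε hε
    refine Eventually.of_forall fun i φ _ => ?_
    simp [hε.le]
  obtain ⟨u, -, hu, huS⟩ := exists_seq_tendsto_sSup hne (OrderTop.bddAbove S)
  choose E hEm hEr hEu using huS
  refine ⟨⋃ n, E n, MeasurableSet.iUnion hEm, Rig_iUnion hR hs ν E hEm hEr, ?_⟩
  have hRig := Rig_iUnion hR hs ν E hEm hEr
  have hsup : sSup S ≤ ν (⋃ n, E n) := by
    refine le_of_tendsto hu (Eventually.of_forall fun n => ?_)
    rw [← hEu n]
    exact measure_mono (Set.subset_iUnion E n)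
  have hmax : ∀ F : Set G, MeasurableSet F → Rig l s (ν.restrict F) →
      ν (F \ ⋃ n, E n) = 0 := by
    intro F hF hFr
    have h1 : ν ((⋃ n, E n) ∪ F) ≤ sSup S :=
      le_sSup ⟨_, (MeasurableSet.iUnion hEm).union hF, Rig_union hR hs ν hRig hFr, rfl⟩
    have h2 : ν ((⋃ n, E n) ∪ F) = ν (⋃ n, E n) + ν (F \ ⋃ n, E n) := by
      rw [← Set.union_sdiff_self, measure_union Set.disjoint_sdiff_right
        (hF.diff (MeasurableSet.iUnion hEm))]
    have h3 : ν (⋃ n, E n) + ν (F \ ⋃ n, E n) ≤ ν (⋃ n, E n) + 0 := by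
      rw [← h2, add_zero]
      exact h1.trans hsup
    have h4 := (ENNReal.add_le_add_iff_left (measure_ne_top ν _)).mp h3
    exact le_antisymm h4 bot_le
  intro θ hθf hθν hθ
  have hwd : ν.withDensity (θ.rnDeriv ν) = θ := Measure.withDensity_rnDeriv_eq θ ν hθν
  have hmg : Measurable (θ.rnDeriv ν) := Measure.measurable_rnDeriv θ ν
  set G0 : Set G := {x | θ.rnDeriv ν x ≠ 0} with hG0
  have hG0m : MeasurableSet G0 := (hmg (measurableSet_singleton 0)).compl
  have hzero : ∀ A : Set G, θ A = 0 ↔ ν (G0 ∩ A) = 0 := by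
    intro A
    conv_lhs => rw [← hwd]
    exact withDensity_apply_eq_zero' hmg.aemeasurable
  have hac : ν.restrict G0 ≪ θ := by
    refine Measure.AbsolutelyContinuous.mk fun A hA h0 => ?_
    rw [Measure.restrict_apply hA, Set.inter_comm]
    exact (hzero A).mp h0
  have hG0r : Rig l s (ν.restrict G0) := hR G ι l s θ (ν.restrict G0) hθ hs hac
  rw [hzero]
  have := hmax G0 hG0m hG0r
  rwa [Set.sdiff_eq] at this

end Pool.Agent.Y969.HM.Max
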